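import Pool.Agent.ZPU.Stmts
import Pool.Agent.Helper13_ZP3.RAYa

/-!
Squad ZPU, row TEF: Teichmueller elements.
-/

set_option autoImplicit false

namespace Pool.Agent.ZPU.H64

open Polynomial Pool.Agent.ZPT Pool.Agent.ZP3

theorem te_cases {p : ℕ} (hp : p.Prime) {K : Type} [NormedField K] {x : K} (hx : Te p x) :
    x = 0 ∨ Tame p x := by
  obtain ⟨f, hf, h⟩ := hx
  by_cases hx0 : x = 0
  · exact Or.inl hx0
  · right
    have h2 : 2 ≤ p ^ f := by
      calc 2 ≤ p := hp.two_le
        _ = p ^ 1 := (pow_one p).symm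
        _ ≤ p ^ f := Nat.pow_le_pow_right hp.pos hf
    refine ⟨p ^ f - 1, by omega, ?_, ?_⟩
    · intro hd
      have h3 : p ∣ p ^ f := dvd_pow_self p (by omega)
      have h4 : p ∣ p ^ f - (p ^ f - 1) := Nat.dvd_sub h3 hd
      have h5 : p ^ f - (p ^ f - 1) = 1 := by omega
      rw [h5] at h4
      exact hp.one_lt.ne' (Nat.dvd_one.1 h4)
    · have h3 : x ^ (p ^ f - 1) * x = 1 * x := by
        rw [← pow_succ, one_mul]
        have h4 : p ^ f - 1 + 1 = p ^ f := by omega
        rw [h4, h]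
      exact mul_right_cancel₀ hx0 h3

theorem tame_te {p : ℕ} (hp : p.Prime) {K : Type} [NormedField K] {x : K} (hx : Tame p x) :
    Te p x := by
  obtain ⟨M, hM, hpM, h⟩ := hx
  have hc : Nat.Coprime p M := (Nat.Prime.coprime_iff_not_dvd hp).2 hpM
  have h1 : 0 < Nat.totient M := Nat.totient_pos.2 hM
  refine ⟨Nat.totient M, h1, ?_⟩
  have h2 : ∀ n : ℕ, x ^ n = x ^ (n % M) := by
    intro n
    conv_lhs => rw [← Nat.div_add_mod n M, pow_add, pow_mul, h, one_pow, one_mul]
  have h3 : p ^ Nat.totient M % M = 1 % M := Nat.ModEq.pow_totient hc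
  rw [h2, h3, ← h2, pow_one]

theorem te_zero {p : ℕ} (hp : p.Prime) (K : Type) [NormedField K] : Te p (0 : K) :=
  ⟨1, le_refl 1, by rw [pow_one]; exact zero_pow hp.ne_zero⟩

/-- Row TEF. -/
theorem tef (urr : URRStmt) (urt : URTStmt) (wtm : WTMStmt) : TEFStmt := by
  intro p hp K _ _ _ hK
  have hur0 : Ur p (0 : K) := by
    have h := (urr p hp K hK).2.2.1 0
    rwa [Int.cast_zero] at h
  have hU : ∀ x : K, Te p x → Ur p x := by
    intro x hx
    rcases te_cases hp hx with h | h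
    · rw [h]; exact hur0
    · exact ((urt p hp K hK).1 x h).1
  refine ⟨?_, ?_, te_zero hp K, ?_⟩
  · intro x hx
    refine ⟨hU x hx, (hU x hx).1, te_cases hp hx, ?_⟩
    rcases te_cases hp hx with h | h
    · exact ⟨0, te_zero hp K, by rw [h]; exact zero_pow hp.ne_zero⟩
    · obtain ⟨y, hy, hyp⟩ := Pool.Agent.ZP3.H13.troot hp h
      exact ⟨y, tame_te hp hy, hyp⟩
  · intro x hx
    exact ⟨tame_te hp hx, (urt p hp K hK).1 x hx, Pool.Agent.ZP3.H13.troot hp hx⟩
  · intro x y hx hy hxy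
    rcases te_cases hp hx with h | h
    · rcases te_cases hp hy with h' | h'
      · rw [h, h']
      · exfalso
        rw [h, zero_sub, norm_neg, Pool.Agent.ZP3.H13.tnorm h'] at hxy
        exact lt_irrefl _ hxy
    · rcases te_cases hp hy with h' | h'
      · exfalso
        rw [h', sub_zero, Pool.Agent.ZP3.H13.tnorm h] at hxy
        exact lt_irrefl _ hxy
      · exact Pool.Agent.ZP3.H13.tuniq wtm hp hK h h' hxy

end Pool.Agent.ZPU.H64
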